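import Pool.Agent.Q87.Leonard.Pair

/-!
# Three maps that are pairwise Leonard pairs but do not form a Leonard triple
-/

namespace Pool.Agent.Results.MP_23ff89_al.PairwiseNotTriple

open Pool.Agent.Q87.Krawtchouk

/-- The first map. -/
def mX (K : Type*) [Field K] : Matrix (Fin 3) (Fin 3) K := !![1, 0, 0; 0, 0, 0; 0, 0, -1]

/-- The second map. -/
def mY (K : Type*) [Field K] : Matrix (Fin 3) (Fin 3) K := !![0, 1, 0; 3, 0, 1; 0, 2, -2]

/-- The third map. -/
def mZ (K : Type*) [Field K] : Matrix (Fin 3) (Fin 3) K := !![1, -2, -1; -2, 0, 0; 2, 0, 0]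

lemma diag_mk {K : Type*} [Field K] {M : Matrix (Fin 3) (Fin 3) K}
    (h1 : M 0 1 = 0) (h2 : M 0 2 = 0) (h3 : M 1 0 = 0) (h4 : M 1 2 = 0) (h5 : M 2 0 = 0)
    (h6 : M 2 1 = 0) : IsDiagonal M := by
  intro i j hij
  fin_cases i <;> fin_cases j <;> first | exact absurd rfl hij | assumption

lemma tri_mk {K : Type*} [Field K] {M : Matrix (Fin 3) (Fin 3) K}
    (h1 : M 0 2 = 0) (h2 : M 2 0 = 0) (h3 : M 0 1 ≠ 0) (h4 : M 1 0 ≠ 0) (h5 : M 1 2 ≠ 0)
    (h6 : M 2 1 ≠ 0) : IrredTridiag M := by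
  refine ⟨?_, ?_⟩
  · intro i j hij
    fin_cases i <;> fin_cases j <;> first | assumption | (simp at hij)
  · intro i j hij
    fin_cases i <;> fin_cases j <;> first | assumption | (simp at hij)

/-- Over every field of characteristic zero there are three endomorphisms of a three dimensional
space, each two of which form a Leonard pair, such that no basis diagonalising the first makes both
others irreducible tridiagonal. -/
theorem result (K : Type*) [Field K] [CharZero K] :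
    ∃ X Y Z : Matrix (Fin 3) (Fin 3) K,
      LeonardPair X Y ∧ LeonardPair X Z ∧ LeonardPair Y Z ∧
      ¬ DiagTri X Y Z ∧ ¬ LeonardTriple X Y Z := by
  -- the basis diagonalising Y
  obtain ⟨bY, hbY⟩ := exists_basis_of_mul_eq_one (K := K)
    !![1, 1, 1; -3, -1, 2; 6, -2, 1]
    !![1/10, -1/10, 1/10; 1/2, -1/6, -1/6; 2/5, 4/15, 1/15]
    (by
      ext i j
      fin_cases i <;> fin_cases j <;>
        simp [Matrix.mul_apply, Fin.sum_univ_three] <;> norm_num)
  -- the two orderings of a basis diagonalising Z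
  obtain ⟨bZ, hbZ⟩ := exists_basis_of_mul_eq_one (K := K)
    !![1, 0, 1; 2, 1, -1; -2, -2, 1]
    !![1/3, 2/3, 1/3; 0, -1, -1; 2/3, -2/3, -1/3]
    (by
      ext i j
      fin_cases i <;> fin_cases j <;>
        simp [Matrix.mul_apply, Fin.sum_univ_three] <;> norm_num)
  obtain ⟨bZ', hbZ'⟩ := exists_basis_of_mul_eq_one (K := K)
    !![0, 1, 1; 1, 2, -1; -2, -2, 1]
    !![0, -1, -1; 1/3, 2/3, 1/3; 2/3, -2/3, -1/3]
    (by
      ext i j
      fin_cases i <;> fin_cases j <;>
        simp [Matrix.mul_apply, Fin.sum_univ_three] <;> norm_num)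
  -- the two orderings of a basis diagonalising X
  obtain ⟨bX, hbX⟩ := exists_basis_of_mul_eq_one (K := K) 1 1 (by simp)
  obtain ⟨bX', hbX'⟩ := exists_basis_of_mul_eq_one (K := K)
    !![0, 1, 0; 1, 0, 0; 0, 0, 1] !![0, 1, 0; 1, 0, 0; 0, 0, 1]
    (by
      ext i j
      fin_cases i <;> fin_cases j <;>
        simp [Matrix.mul_apply, Fin.sum_univ_three])
  have hnot : ¬ DiagTri (mX K) (mY K) (mZ K) := by
    rintro ⟨b, hX, hY, hZ⟩
    have hXd : mX K = Matrix.diagonal ![1, 0, -1] := by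
      ext i j
      fin_cases i <;> fin_cases j <;> simp [mX, Matrix.diagonal]
    rw [hXd] at hX
    have hinj : Function.Injective (![1, 0, -1] : Fin 3 → K) := by
      intro i j hij
      fin_cases i <;> fin_cases j <;> first | rfl | (exfalso; revert hij; simp; try norm_num)
    obtain ⟨π, c, hπ, hc, _, hW⟩ := exists_perm_of_diag _ hinj b hX
    have h02 : (0 : Fin 3) ≠ 2 := by decide
    have hne : π 0 ≠ π 2 := fun h => h02 (hπ h)
    have hY0 : mY K (π 0) (π 2) = 0 := by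
      have h1 := hW (mY K) 0 2
      rw [hY.1 0 2 (by left; decide), zero_mul] at h1
      exact (mul_eq_zero.1 h1.symm).resolve_left (hc 2)
    have hZ0 : mZ K (π 0) (π 2) = 0 := by
      have h1 := hW (mZ K) 0 2
      rw [hZ.1 0 2 (by left; decide), zero_mul] at h1
      exact (mul_eq_zero.1 h1.symm).resolve_left (hc 2)
    generalize π 0 = p at *
    generalize π 2 = q at *
    fin_cases p <;> fin_cases q <;> simp [mY, mZ] at hne hY0 hZ0
  refine ⟨mX K, mY K, mZ K, ⟨⟨bX, ?_, ?_⟩, ⟨bY, ?_, ?_⟩⟩, ⟨⟨bX', ?_, ?_⟩, ⟨bZ, ?_, ?_⟩⟩,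
    ⟨⟨bY, ?_, ?_⟩, ⟨bZ', ?_, ?_⟩⟩, hnot, fun h => hnot h.1⟩
  · rw [hbX]
    apply diag_mk <;> simp [mX]
  · rw [hbX]
    apply tri_mk <;> simp [mY]
  · rw [hbY]
    apply diag_mk <;> simp [mY, Matrix.mul_apply, Fin.sum_univ_three] <;> norm_num
  · rw [hbY]
    apply tri_mk <;> simp [mX, Matrix.mul_apply, Fin.sum_univ_three] <;> norm_num
  · rw [hbX']
    apply diag_mk <;> simp [mX, Matrix.mul_apply, Fin.sum_univ_three]
  · rw [hbX']
    apply tri_mk <;> simp [mZ, Matrix.mul_apply, Fin.sum_univ_three]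
  · rw [hbZ]
    apply diag_mk <;> simp [mZ, Matrix.mul_apply, Fin.sum_univ_three] <;> norm_num
  · rw [hbZ]
    apply tri_mk <;> simp [mX, Matrix.mul_apply, Fin.sum_univ_three] <;> norm_num
  · rw [hbY]
    apply diag_mk <;> simp [mY, Matrix.mul_apply, Fin.sum_univ_three] <;> norm_num
  · rw [hbY]
    apply tri_mk <;> simp [mZ, Matrix.mul_apply, Fin.sum_univ_three] <;> norm_num
  · rw [hbZ']
    apply diag_mk <;> simp [mZ, Matrix.mul_apply, Fin.sum_univ_three] <;> norm_num
  · rw [hbZ']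
    apply tri_mk <;> simp [mY, Matrix.mul_apply, Fin.sum_univ_three] <;> norm_num

end Pool.Agent.Results.MP_23ff89_al.PairwiseNotTriple
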